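import Pool.Agent.Q134.UPMain

/-!
# Loopless graphs with equal `U`-polynomial but different strong `U`-polynomial

Two loopless graphs with six vertices and nine edges (one double edge each):
`G` has the edges `01, 02, 03, 03, 05, 12, 13, 14, 24` and
`H` has the edges `01, 02, 03, 03, 04, 12, 14, 15, 23`.
All `2 ^ 9` edge subsets are enumerated (in the kernel) together with the partition into components.
-/

set_option autoImplicit false

open Pool.Agent.Q134.UP Finset

namespace Pool.Agent.Results.MP_062ce2_co.SixVertices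

/-- number of edges at a vertex -/
def deg (G : Multigraph (Fin 6) (Fin 9)) (v : Fin 6) : ℕ := (univ.filter fun e => v ∈ G e).card

lemma deg_iso {G H : Multigraph (Fin 6) (Fin 9)} (f : Fin 6 ≃ Fin 6) (g : Fin 9 ≃ Fin 9)
    (h : ∀ e, H (g e) = (G e).map f) (v : Fin 6) : deg H (f v) = deg G v := by
  unfold deg
  symm
  refine card_bij (fun e _ => g e) ?_ ?_ ?_
  · intro e he
    rw [mem_filter] at he ⊢
    refine ⟨mem_univ _, ?_⟩
    rw [h, Sym2.mem_map]
    exact ⟨v, he.2, rfl⟩
  · intro e _ e' _ hee
    exact g.injective hee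
  · intro e he
    rw [mem_filter] at he
    refine ⟨g.symm e, ?_, by simp⟩
    rw [mem_filter]
    refine ⟨mem_univ _, ?_⟩
    have h1 := he.2
    rw [← g.apply_symm_apply e, h, Sym2.mem_map] at h1
    obtain ⟨w, hw, hwv⟩ := h1
    rwa [← f.injective hwv]

lemma not_iso : ¬ Isomorphic (mk enG) (mk enH) := by
  rintro ⟨f, g, h⟩
  have h1 : deg (mk enH) (f 5) = 1 := by rw [deg_iso f g h]; decide +kernel
  have h2 : deg (mk enH) (f 0) = 5 := by rw [deg_iso f g h]; decide +kernel
  have h3 : mk enH (g 4) = s(f 0, f 5) := by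
    rw [h]; rfl
  have h4 : ∀ (e : Fin 9) (v w : Fin 6), mk enH e = s(v, w) → deg (mk enH) w = 1 →
      deg (mk enH) v ≠ 5 := by decide +kernel
  exact h4 _ _ _ h3 h1 h2

/-- **Theorem.** There are two non-isomorphic loopless graphs (with six vertices and nine edges)
which have the same `U`-polynomial but different strong `U`-polynomials. -/
theorem result : ∃ G H : Multigraph (Fin 6) (Fin 9), Loopless G ∧ Loopless H ∧
    ¬ Isomorphic G H ∧ U G = U H ∧ strongU G ≠ strongU H := by
  refine ⟨mk enG, mk enH, ?_, ?_, not_iso, ?_, ?_⟩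
  · unfold Loopless; decide +kernel
  · unfold Loopless; decide +kernel
  · rw [U_eq, U_eq]
    exact ((List.isPerm_iff.mp perm_GH).map monU).sum_eq
  · intro h
    have h1 := strongU_eval enG
    rw [h, strongU_eval enH, sG, sH] at h1
    exact absurd h1 (by norm_num)

end Pool.Agent.Results.MP_062ce2_co.SixVertices
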